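import Mathlib

set_option autoImplicit false

/-!
# Generalized q-deformations: the characteristic polynomial need not be a polynomial in `q`

There is a simplicial complex with seven vertices and of dimension two for which no polynomial in
two variables interpolates the characteristic polynomials of the generalized `q`-deformations,
not even over the primes `q`.  The complexes considered contain all pairs and all triples which are
not lines of the Fano plane; if they all had an interpolating polynomial then the number of labelled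
Fano planes in the projective plane of order `q` would be a polynomial in `q`.
-/

namespace Pool.Agent.Results.MP_6fdec2_co.NoInterpolation

open Finset

/-- `Δ` is (the set of faces of) a simplicial complex with vertex set `Fin l`. -/
def IsComplex {l : ℕ} (Δ : Set (Finset (Fin l))) : Prop :=
  (∀ s ∈ Δ, ∀ t ⊆ s, t ∈ Δ) ∧ ∀ i : Fin l, {i} ∈ Δ

/-- The kernel of the linear form `a_1 x_1 + ... + a_l x_l`. -/
def ker {l : ℕ} {F : Type} [Field F] (a : Fin l → F) : Submodule F (Fin l → F) :=
  LinearMap.ker (∑ i, a i • (LinearMap.proj i : (Fin l → F) →ₗ[F] F))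

/-- The generalized deformation of `Δ` over the field `F`: the kernels of the linear forms whose
support (the set of the `i` with nonzero coefficient) is a nonempty face of `Δ`. -/
def deformation {l : ℕ} (Δ : Set (Finset (Fin l))) (F : Type) [Field F] :
    Set (Submodule F (Fin l → F)) :=
  {H | ∃ s ∈ Δ, s.Nonempty ∧ ∃ a : Fin l → F, (∀ i, a i ≠ 0 ↔ i ∈ s) ∧ H = ker a}

open Classical in
/-- The characteristic polynomial `∑_I (-1)^|I| t^(dim H_I)` of a (finite) set of subspaces. -/
noncomputable def charPoly {l : ℕ} {F : Type} [Field F] [Finite F]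
    (A : Set (Submodule F (Fin l → F))) : Polynomial ℤ :=
  ∑ I ∈ (Set.toFinite A).toFinset.powerset,
    (-1) ^ I.card * Polynomial.X ^ Module.finrank F (↥(sInf (I : Set (Submodule F (Fin l → F)))))

/-! ### evaluation at `q ^ 3` -/

/-- `x` satisfies a relation with support `s` -/
def Bad {l : ℕ} {F : Type} [Field F] (s : Finset (Fin l)) (x : Fin 3 → Fin l → F) : Prop :=
  ∃ a : Fin l → F, (∀ i, a i ≠ 0 ↔ i ∈ s) ∧ ∀ j, ∑ i, a i * x j i = 0

theorem mem_ker {l : ℕ} {F : Type} [Field F] (a y : Fin l → F) :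
    y ∈ ker a ↔ ∑ i, a i * y i = 0 := by
  rw [ker, LinearMap.mem_ker]
  simp

open Classical in
theorem eval_charPoly {l : ℕ} {F : Type} [Field F] [Fintype F]
    (A : Set (Submodule F (Fin l → F))) :
    (charPoly A).eval ((Fintype.card F : ℤ) ^ 3) =
      ((univ.filter (fun x : Fin 3 → Fin l → F => ∀ H ∈ A, ¬ ∀ j, x j ∈ H)).card : ℤ) := by
  set T := (Set.toFinite A).toFinset with hT
  have hmem : ∀ H, H ∈ T ↔ H ∈ A := fun H => by rw [hT]; exact Set.Finite.mem_toFinset _
  have h1 : ((univ.filter (fun x : Fin 3 → Fin l → F => ∀ H ∈ A, ¬ ∀ j, x j ∈ H)).card : ℤ) =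
      ∑ x : Fin 3 → Fin l → F, ∏ H ∈ T, (-(if ∀ j, x j ∈ H then (1 : ℤ) else 0) + 1) := by
    rw [card_filter]
    push_cast
    apply sum_congr rfl
    intro x _
    by_cases h : ∀ H ∈ A, ¬ ∀ j, x j ∈ H
    · rw [if_pos h, prod_eq_one]
      intro H hH
      rw [if_neg (h H ((hmem H).1 hH))]
      simp
    · rw [if_neg h]
      push Not at h
      obtain ⟨H, hH, hx⟩ := h
      symm
      apply prod_eq_zero ((hmem H).2 hH)
      rw [if_pos hx]
      simp
  rw [h1]
  simp_rw [prod_add, prod_const_one, mul_one]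
  rw [sum_comm, charPoly, Polynomial.eval_finsetSum]
  apply sum_congr rfl
  intro I _
  rw [Polynomial.eval_mul, Polynomial.eval_pow, Polynomial.eval_pow, Polynomial.eval_neg,
    Polynomial.eval_one, Polynomial.eval_X]
  have h2 : ∀ x : Fin 3 → Fin l → F, ∏ H ∈ I, (-(if ∀ j, x j ∈ H then (1 : ℤ) else 0)) =
      (-1) ^ I.card * (if ∀ j, x j ∈ sInf (I : Set (Submodule F (Fin l → F))) then (1 : ℤ) else 0) := by
    intro x
    rw [prod_neg]
    congr 1
    by_cases h : ∀ j, x j ∈ sInf (I : Set (Submodule F (Fin l → F)))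
    · rw [if_pos h]
      apply prod_eq_one
      intro H hH
      rw [if_pos]
      intro j
      exact (Submodule.mem_sInf.1 (h j)) H hH
    · rw [if_neg h]
      push Not at h
      obtain ⟨j, hj⟩ := h
      rw [Submodule.mem_sInf] at hj
      push Not at hj
      obtain ⟨H, hH, hx⟩ := hj
      apply prod_eq_zero hH
      rw [if_neg]
      exact fun h => hx (h j)
  rw [sum_congr rfl (fun x _ => h2 x), ← mul_sum]
  congr 1
  set W := sInf (I : Set (Submodule F (Fin l → F)))
  have h3 : ∑ x : Fin 3 → Fin l → F, (if ∀ j, x j ∈ W then (1 : ℤ) else 0) =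
      (Fintype.card (Fin 3 → W) : ℤ) := by
    rw [← Nat.cast_one, ← Nat.cast_zero]
    have : ∀ x : Fin 3 → Fin l → F, (if ∀ j, x j ∈ W then ((1 : ℕ) : ℤ) else ((0 : ℕ) : ℤ)) =
        ((if ∀ j, x j ∈ W then 1 else 0 : ℕ) : ℤ) := by
      intro x; split_ifs <;> rfl
    rw [sum_congr rfl (fun x _ => this x), ← Nat.cast_sum, ← card_filter]
    congr 1
    symm
    rw [← card_univ]
    apply card_bij (fun (y : Fin 3 → W) _ => (fun j => ((y j : W) : Fin l → F)))
    · intro y _
      rw [mem_filter]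
      exact ⟨mem_univ _, fun j => (y j).2⟩
    · intro y _ z _ h
      funext j
      exact Subtype.ext (congrFun h j)
    · intro x hx
      rw [mem_filter] at hx
      exact ⟨fun j => ⟨x j, hx.2 j⟩, mem_univ _, rfl⟩
  have h4 : Fintype.card W = Fintype.card F ^ Module.finrank F W :=
    Module.card_eq_pow_finrank (K := F) (V := W)
  rw [h3, Fintype.card_fun, Fintype.card_fin, h4]
  push_cast
  rw [← pow_mul, ← pow_mul, mul_comm]

open Classical in
theorem eval_deformation {l : ℕ} (Δ : Set (Finset (Fin l))) (F : Type) [Field F] [Fintype F] :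
    (charPoly (deformation Δ F)).eval ((Fintype.card F : ℤ) ^ 3) =
      ((univ.filter (fun x : Fin 3 → Fin l → F => ∀ s ∈ Δ, s.Nonempty → ¬ Bad s x)).card : ℤ) := by
  rw [eval_charPoly]
  congr 2
  ext x
  rw [mem_filter, mem_filter]
  refine and_congr_right (fun _ => ?_)
  constructor
  · rintro h s hs hne ⟨a, ha, hx⟩
    exact h _ ⟨s, hs, hne, a, ha, rfl⟩ (fun j => (mem_ker a (x j)).2 (hx j))
  · rintro h H ⟨s, hs, hne, a, ha, rfl⟩ hx
    exact h s hs hne ⟨a, ha, fun j => (mem_ker a (x j)).1 (hx j)⟩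

/-! ### the Fano plane -/

/-- the lines of the Fano plane -/
def L : Finset (Finset (Fin 7)) :=
  {{0, 1, 3}, {1, 2, 4}, {2, 3, 5}, {3, 4, 6}, {4, 5, 0}, {5, 6, 1}, {6, 0, 2}}

/-- the complexes considered -/
def Cx (S : Finset (Finset (Fin 7))) : Set (Finset (Fin 7)) :=
  {s | s.card ≤ 3 ∧ (s ∈ L → s ∈ S)}

theorem L_card : ∀ s ∈ L, s.card = 3 := by decide +kernel

theorem Cx_isComplex (S : Finset (Finset (Fin 7))) : IsComplex (Cx S) := by
  constructor
  · rintro s ⟨h1, h2⟩ t hts
    refine ⟨(card_le_card hts).trans h1, fun ht => ?_⟩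
    have : t = s := eq_of_subset_of_card_le hts (by rw [L_card t ht]; exact h1)
    subst this
    exact h2 ht
  · intro i
    refine ⟨by simp, fun h => ?_⟩
    have := L_card _ h
    simp at this

/-- labelled Fano planes -/
def Fano {F : Type} [Field F] (x : Fin 3 → Fin 7 → F) : Prop :=
  (∀ s : Finset (Fin 7), s.card ≤ 3 → s ∉ L → s.Nonempty → ¬ Bad s x) ∧ ∀ s ∈ L, Bad s x

open Classical in
theorem alternating (F : Type) [Field F] [Fintype F] :
    ∑ S ∈ L.powerset, (-1 : ℤ) ^ S.card *
        (charPoly (deformation (Cx S) F)).eval ((Fintype.card F : ℤ) ^ 3) =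
      ((univ.filter (fun x : Fin 3 → Fin 7 → F => Fano x)).card : ℤ) := by
  simp_rw [eval_deformation]
  have h1 : ∀ S ∈ L.powerset,
      ((univ.filter (fun x : Fin 3 → Fin 7 → F => ∀ s ∈ Cx S, s.Nonempty → ¬ Bad s x)).card : ℤ) =
      ∑ x : Fin 3 → Fin 7 → F,
        (if ∀ s : Finset (Fin 7), s.card ≤ 3 → s ∉ L → s.Nonempty → ¬ Bad s x then (1 : ℤ) else 0) *
        ∏ s ∈ S, (if Bad s x then (0 : ℤ) else 1) := by
    intro S hS
    rw [mem_powerset] at hS
    rw [card_filter]
    push_cast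
    apply sum_congr rfl
    intro x _
    by_cases hA : ∀ s : Finset (Fin 7), s.card ≤ 3 → s ∉ L → s.Nonempty → ¬ Bad s x
    · rw [if_pos hA, one_mul]
      by_cases hB : ∀ s ∈ S, ¬ Bad s x
      · rw [if_pos, prod_eq_one]
        · intro s hs
          rw [if_neg (hB s hs)]
        · rintro s ⟨h1, h2⟩ hne
          by_cases hL : s ∈ L
          · exact hB s (h2 hL)
          · exact hA s h1 hL hne
      · push Not at hB
        obtain ⟨s, hs, hbad⟩ := hB
        rw [if_neg, prod_eq_zero hs (by rw [if_pos hbad])]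
        intro h
        have hc := L_card s (hS hs)
        exact h s ⟨by omega, fun _ => hs⟩ (card_pos.1 (by omega)) hbad
    · rw [if_neg hA, if_neg, zero_mul]
      intro h
      apply hA
      intro s h1 h2 h3
      exact h s ⟨h1, fun h4 => absurd h4 h2⟩ h3
  rw [sum_congr rfl (fun S hS => by rw [h1 S hS])]
  simp_rw [mul_sum]
  rw [sum_comm, card_filter]
  push_cast
  apply sum_congr rfl
  intro x _
  have h2 : ∀ S ∈ L.powerset, (-1 : ℤ) ^ S.card *
      ((if ∀ s : Finset (Fin 7), s.card ≤ 3 → s ∉ L → s.Nonempty → ¬ Bad s x then (1 : ℤ) else 0) *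
        ∏ s ∈ S, (if Bad s x then (0 : ℤ) else 1)) =
      (if ∀ s : Finset (Fin 7), s.card ≤ 3 → s ∉ L → s.Nonempty → ¬ Bad s x then (1 : ℤ) else 0) *
        ((∏ s ∈ S, (-(if Bad s x then (0 : ℤ) else 1))) * ∏ s ∈ L \ S, (1 : ℤ)) := by
    intro S _
    rw [prod_neg, prod_const_one]
    ring
  rw [sum_congr rfl h2, ← mul_sum, ← prod_add]
  by_cases hA : ∀ s : Finset (Fin 7), s.card ≤ 3 → s ∉ L → s.Nonempty → ¬ Bad s x
  · rw [if_pos hA, one_mul]
    by_cases hB : ∀ s ∈ L, Bad s x
    · rw [if_pos ⟨hA, hB⟩, prod_eq_one]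
      intro s hs
      rw [if_pos (hB s hs)]
      simp
    · rw [if_neg (fun h => hB h.2)]
      push Not at hB
      obtain ⟨s, hs, hnb⟩ := hB
      apply prod_eq_zero hs
      rw [if_neg hnb]
      simp
  · rw [if_neg hA, if_neg (fun h => hA h.1), zero_mul]

/-! ### odd characteristic -/

theorem no_fano {F : Type} [Field F] (h2 : (2 : F) ≠ 0) (x : Fin 3 → Fin 7 → F) : ¬ Fano x := by
  rintro ⟨hI, hL⟩
  -- linear independence of the points 0, 1, 2
  have hind : ∀ c0 c1 c2 : F, (∀ j, c0 * x j 0 + c1 * x j 1 + c2 * x j 2 = 0) →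
      c0 = 0 ∧ c1 = 0 ∧ c2 = 0 := by
    intro c0 c1 c2 h
    by_contra hcon
    classical
    let a : Fin 7 → F := ![c0, c1, c2, 0, 0, 0, 0]
    let s : Finset (Fin 7) := univ.filter (fun i => a i ≠ 0)
    have hs : s ⊆ {0, 1, 2} := by
      intro i hi
      rw [mem_filter] at hi
      have := hi.2
      fin_cases i <;> simp_all [a]
    have hne : s.Nonempty := by
      by_contra hemp
      rw [not_nonempty_iff_eq_empty] at hemp
      apply hcon
      have h0 : ∀ i, a i = 0 := by
        intro i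
        by_contra hi
        have : i ∈ s := mem_filter.2 ⟨mem_univ _, hi⟩
        rw [hemp] at this
        exact absurd this (notMem_empty _)
      exact ⟨h0 0, h0 1, h0 2⟩
    have hnL : s ∉ L := by
      intro hsL
      have hc := L_card s hsL
      have : s = {0, 1, 2} := eq_of_subset_of_card_le hs (by rw [hc]; decide)
      rw [this] at hsL
      revert hsL
      decide
    refine hI s ((card_le_card hs).trans (by decide)) hnL hne ⟨a, fun i => ?_, fun j => ?_⟩
    · rw [mem_filter]
      simp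
    · have := h j
      simp only [a, Fin.sum_univ_succ, Fin.sum_univ_zero]
      simp
      linear_combination this
  -- relations of the lines
  have rel : ∀ p q r : Fin 7, p ≠ q → q ≠ r → p ≠ r → ({p, q, r} : Finset (Fin 7)) ∈ L →
      ∃ a b c : F, a ≠ 0 ∧ b ≠ 0 ∧ c ≠ 0 ∧ ∀ j, a * x j p + b * x j q + c * x j r = 0 := by
    intro p q r hpq hqr hpr hmem
    obtain ⟨a, ha, hx⟩ := hL _ hmem
    refine ⟨a p, a q, a r, (ha p).2 (by simp), (ha q).2 (by simp), (ha r).2 (by simp), ?_⟩
    intro j
    have h1 := hx j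
    have h3 : ∑ i, a i * x j i = ∑ i ∈ ({p, q, r} : Finset (Fin 7)), a i * x j i := by
      symm
      apply sum_subset (subset_univ _)
      intro i _ hi
      have : a i = 0 := by
        by_contra hcon
        exact hi ((ha i).1 hcon)
      rw [this, zero_mul]
    rw [h3, sum_insert (by simp [hpq, hpr]), sum_insert (by simp [hqr]), sum_singleton] at h1
    linear_combination h1
  obtain ⟨a0, a1, a3, na0, na1, na3, ra⟩ := rel 0 1 3 (by decide) (by decide) (by decide) (by decide)
  obtain ⟨b1, b2, b4, nb1, nb2, nb4, rb⟩ := rel 1 2 4 (by decide) (by decide) (by decide) (by decide)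
  obtain ⟨c2, c3, c5, nc2, nc3, nc5, rc⟩ := rel 2 3 5 (by decide) (by decide) (by decide) (by decide)
  obtain ⟨d3, d4, d6, nd3, nd4, nd6, rd⟩ := rel 3 4 6 (by decide) (by decide) (by decide) (by decide)
  obtain ⟨e4, e5, e0, ne4, ne5, ne0, re⟩ := rel 4 5 0 (by decide) (by decide) (by decide) (by decide)
  obtain ⟨f5, f6, f1, nf5, nf6, nf1, rf⟩ := rel 5 6 1 (by decide) (by decide) (by decide) (by decide)
  obtain ⟨g6, g0, g2, ng6, ng0, ng2, rg⟩ := rel 6 0 2 (by decide) (by decide) (by decide) (by decide)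
  have E12 := hind (e5 * b4 * c3 * a0 + c5 * a3 * e0 * b4) (e5 * b4 * c3 * a1 - c5 * a3 * e4 * b1)
    (-(e5 * b4 * c2 * a3) - c5 * a3 * e4 * b2) (fun j => by
      linear_combination (e5 * b4 * c3) * ra j - (c5 * a3 * e4) * rb j
        - (e5 * b4 * a3) * rc j + (c5 * a3 * b4) * re j)
  have E13 := hind (f5 * g6 * c3 * a0 - c5 * a3 * f6 * g0) (f5 * g6 * c3 * a1 + c5 * a3 * f1 * g6)
    (-(f5 * g6 * c2 * a3) - c5 * a3 * f6 * g2) (fun j => by
      linear_combination (f5 * g6 * c3) * ra j - (f5 * g6 * a3) * rc j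
        + (c5 * a3 * g6) * rf j - (c5 * a3 * f6) * rg j)
  have E23 := hind (-(f5 * g6 * e0 * b4) - e5 * b4 * f6 * g0) (f5 * g6 * e4 * b1 + e5 * b4 * f1 * g6)
    (f5 * g6 * e4 * b2 - e5 * b4 * f6 * g2) (fun j => by
      linear_combination (f5 * g6 * e4) * rb j - (f5 * g6 * b4) * re j
        + (e5 * b4 * g6) * rf j - (e5 * b4 * f6) * rg j)
  have D := hind (d3 * a0 * b4 * g6 + d6 * g0 * a3 * b4) (d3 * a1 * b4 * g6 + d4 * b1 * a3 * g6)
    (d4 * b2 * a3 * g6 + d6 * g2 * a3 * b4) (fun j => by
      linear_combination (d3 * b4 * g6) * ra j + (d4 * a3 * g6) * rb j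
        + (d6 * a3 * b4) * rg j - (a3 * b4 * g6) * rd j)
  have e1 : e5 * b4 * c3 * a1 = c5 * a3 * e4 * b1 := by linear_combination E12.2.1
  have e2 : f5 * g6 * c3 * a0 = c5 * a3 * f6 * g0 := by linear_combination E13.1
  have e3 : f5 * g6 * e4 * b2 = e5 * b4 * f6 * g2 := by linear_combination E23.2.2
  have p1 : (e5 * b4 * c3 * c5 * a3 * f6 * f5 * g6 * e4) * (a1 * g0 * b2 - b1 * a0 * g2) = 0 := by
    have : (e5 * b4 * c3 * a1) * (c5 * a3 * f6 * g0) * (f5 * g6 * e4 * b2) =
        (c5 * a3 * e4 * b1) * (f5 * g6 * c3 * a0) * (e5 * b4 * f6 * g2) := by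
      rw [e1, ← e2, e3]
    linear_combination this
  have q1 : a1 * g0 * b2 = b1 * a0 * g2 := by
    rcases mul_eq_zero.1 p1 with h | h
    · exact absurd h (by simp [ne5, nb4, nc3, nc5, na3, nf6, nf5, ng6, ne4])
    · linear_combination h
  have d0 : d3 * a0 * g6 = -(d6 * g0 * a3) := by
    have : b4 * (d3 * a0 * g6 + d6 * g0 * a3) = 0 := by linear_combination D.1
    rcases mul_eq_zero.1 this with h | h
    · exact absurd h nb4
    · linear_combination h
  have d1 : d4 * b1 * a3 = -(d3 * a1 * b4) := by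
    have : g6 * (d3 * a1 * b4 + d4 * b1 * a3) = 0 := by linear_combination D.2.1
    rcases mul_eq_zero.1 this with h | h
    · exact absurd h ng6
    · linear_combination h
  have d2 : d6 * g2 * b4 = -(d4 * b2 * g6) := by
    have : a3 * (d4 * b2 * g6 + d6 * g2 * b4) = 0 := by linear_combination D.2.2
    rcases mul_eq_zero.1 this with h | h
    · exact absurd h na3
    · linear_combination h
  have p2 : (d3 * d4 * d6 * g6 * a3 * b4) * (a0 * b1 * g2 + g0 * a1 * b2) = 0 := by
    have : (d3 * a0 * g6) * (d4 * b1 * a3) * (d6 * g2 * b4) =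
        (-(d6 * g0 * a3)) * (-(d3 * a1 * b4)) * (-(d4 * b2 * g6)) := by rw [d0, d1, d2]
    linear_combination this
  have q2 : a0 * b1 * g2 + g0 * a1 * b2 = 0 := by
    rcases mul_eq_zero.1 p2 with h | h
    · exact absurd h (by simp [nd3, nd4, nd6, ng6, na3, nb4])
    · exact h
  have q3 : 2 * (a0 * b1 * g2) = 0 := by linear_combination q2 - q1
  rcases mul_eq_zero.1 q3 with h | h
  · exact h2 h
  · exact absurd h (by simp [na0, nb1, ng2])

/-! ### characteristic two -/

/-- the Fano plane over `ZMod 2` -/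
def fano2 : Fin 3 → Fin 7 → ZMod 2 :=
  ![![1, 0, 0, 1, 0, 1, 1], ![0, 1, 0, 1, 1, 1, 0], ![0, 0, 1, 0, 1, 1, 1]]

instance : Fact (Nat.Prime 2) := ⟨Nat.prime_two⟩

theorem bad_two (s : Finset (Fin 7)) (x : Fin 3 → Fin 7 → ZMod 2) :
    Bad s x ↔ ∀ j, ∑ i ∈ s, x j i = 0 := by
  have hz : ∀ z : ZMod 2, z ≠ 0 → z = 1 := by decide
  constructor
  · rintro ⟨a, ha, hx⟩ j
    rw [← hx j]
    rw [← sum_subset (subset_univ s)]
    · apply sum_congr rfl
      intro i hi
      rw [hz _ ((ha i).2 hi), one_mul]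
    · intro i _ hi
      have : a i = 0 := by
        by_contra hcon
        exact hi ((ha i).1 hcon)
      rw [this, zero_mul]
  · intro h
    classical
    refine ⟨fun i => if i ∈ s then 1 else 0, fun i => ?_, fun j => ?_⟩
    · by_cases hi : i ∈ s <;> simp [hi]
    · have h1 : ∑ i, (if i ∈ s then (1 : ZMod 2) else 0) * x j i = ∑ i ∈ s, x j i := by
        simp
      show ∑ i, (if i ∈ s then (1 : ZMod 2) else 0) * x j i = 0
      rw [h1]
      exact h j

theorem fano_two : Fano fano2 := by
  constructor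
  · intro s h1 h2 h3
    rw [bad_two]
    revert s
    decide +kernel
  · intro s hs
    rw [bad_two]
    revert s
    decide +kernel

/-- There is a simplicial complex `Δ` with vertex set `Fin 7` and of dimension at most two such that
no polynomial `P` in two variables (even with complex coefficients) satisfies
`χ(S_Δ^q, t) = P(q, t)` for all primes `q`. -/
theorem result : ∃ Δ : Set (Finset (Fin 7)), IsComplex Δ ∧ (∀ s ∈ Δ, s.card ≤ 3) ∧
    ¬ ∃ P : MvPolynomial (Fin 2) ℂ, ∀ (q : ℕ) [Fact q.Prime] (t : ℂ),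
      MvPolynomial.eval ![(q : ℂ), t] P =
        ((charPoly (deformation Δ (ZMod q))).map (Int.castRingHom ℂ)).eval t := by
  classical
  by_contra hcon
  push Not at hcon
  have hP : ∀ S : Finset (Finset (Fin 7)), ∃ P : MvPolynomial (Fin 2) ℂ,
      ∀ (q : ℕ) [Fact q.Prime] (t : ℂ), MvPolynomial.eval ![(q : ℂ), t] P =
        ((charPoly (deformation (Cx S) (ZMod q))).map (Int.castRingHom ℂ)).eval t :=
    fun S => hcon (Cx S) (Cx_isComplex S) (fun s hs => hs.1)
  choose P hP using hP
  let R : Polynomial ℂ := ∑ S ∈ L.powerset, (-1) ^ S.card *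
    MvPolynomial.aeval ![Polynomial.X, Polynomial.X ^ 3] (P S)
  have hR : ∀ (q : ℕ) [Fact q.Prime], R.eval (q : ℂ) =
      ((univ.filter (fun x : Fin 3 → Fin 7 → ZMod q => Fano x)).card : ℂ) := by
    intro q _
    have h1 := alternating (ZMod q)
    rw [ZMod.card] at h1
    have h2 : ∀ S, (MvPolynomial.aeval ![Polynomial.X, Polynomial.X ^ 3] (P S)).eval (q : ℂ) =
        (((charPoly (deformation (Cx S) (ZMod q))).eval ((q : ℤ) ^ 3) : ℤ) : ℂ) := by
      intro S
      have h3 := hP S q ((q : ℂ) ^ 3)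
      have h4 : (MvPolynomial.aeval ![Polynomial.X, Polynomial.X ^ 3] (P S)).eval (q : ℂ) =
          MvPolynomial.eval ![(q : ℂ), (q : ℂ) ^ 3] (P S) := by
        have h5 : (Polynomial.evalRingHom (q : ℂ)) (MvPolynomial.aeval
            ![(Polynomial.X : Polynomial ℂ), Polynomial.X ^ 3] (P S)) =
            MvPolynomial.eval ![(q : ℂ), (q : ℂ) ^ 3] (P S) := by
          rw [MvPolynomial.aeval_def, MvPolynomial.hom_eval₂, ← MvPolynomial.eval₂_id]
          congr 1
          · ext z
            simp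
          · funext i
            fin_cases i <;> simp
        exact h5
      rw [h4, h3, Polynomial.eval_map]
      have : ((q : ℂ) ^ 3) = (Int.castRingHom ℂ) ((q : ℤ) ^ 3) := by simp
      rw [this, Polynomial.eval₂_at_apply]
      rfl
    rw [show R.eval (q : ℂ) = ∑ S ∈ L.powerset, (-1 : ℂ) ^ S.card *
        (MvPolynomial.aeval ![Polynomial.X, Polynomial.X ^ 3] (P S)).eval (q : ℂ) by
      simp only [R]
      rw [Polynomial.eval_finsetSum]
      apply sum_congr rfl
      intro S _
      simp [Polynomial.eval_mul, Polynomial.eval_pow]]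
    simp_rw [h2]
    rw [show ((univ.filter (fun x : Fin 3 → Fin 7 → ZMod q => Fano x)).card : ℂ) =
      (((univ.filter (fun x : Fin 3 → Fin 7 → ZMod q => Fano x)).card : ℤ) : ℂ) by push_cast; rfl,
      ← h1]
    push_cast
    rfl
  have hzero : R = 0 := by
    apply Polynomial.eq_zero_of_infinite_isRoot
    apply Set.Infinite.mono (s := (fun q : ℕ => (q : ℂ)) '' {q | q.Prime ∧ 2 < q})
    · rintro _ ⟨q, ⟨hq, hq2⟩, rfl⟩
      have : Fact q.Prime := ⟨hq⟩
      show R.IsRoot (q : ℂ)
      rw [Polynomial.IsRoot, hR q]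
      have h0 : (univ.filter (fun x : Fin 3 → Fin 7 → ZMod q => Fano x)).card = 0 := by
        rw [card_eq_zero, filter_eq_empty_iff]
        intro x _
        apply no_fano
        intro h
        have h3 : ((2 : ℕ) : ZMod q) = 0 := by
          rw [Nat.cast_ofNat]
          exact h
        rw [ZMod.natCast_eq_zero_iff] at h3
        exact absurd (Nat.le_of_dvd (by norm_num) h3) (by omega)
      rw [h0, Nat.cast_zero]
    · apply Set.Infinite.image
      · intro a _ b _ h
        exact Nat.cast_injective h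
      · intro hfin
        obtain ⟨B, hB⟩ := hfin.bddAbove
        obtain ⟨p, hp1, hp2⟩ := Nat.exists_infinite_primes (B + 3)
        have := hB (show p ∈ {q | q.Prime ∧ 2 < q} from ⟨hp2, by omega⟩)
        omega
  have h2 := hR 2
  rw [hzero, Polynomial.eval_zero] at h2
  have key : ∀ T : Finset (Fin 3 → Fin 7 → ZMod 2), (0 : ℂ) = (T.card : ℂ) → fano2 ∉ T := by
    intro T hT
    have h3 : T.card = 0 := Nat.cast_eq_zero.1 hT.symm
    rw [card_eq_zero] at h3
    rw [h3]
    exact notMem_empty _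
  have h4 := key _ h2
  apply h4
  rw [mem_filter]
  exact And.intro (@mem_univ _ _ _) fano_two

end Pool.Agent.Results.MP_6fdec2_co.NoInterpolation
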